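import Mathlib
import Pool.Agent.Lib.helper21.Steinitz

open MeasureTheory ProbabilityTheory Finset

namespace Pool.Agent.Results.MP_0b8746_pr.Counter

/-- Completion times `C t i j` (task position `i`, machine `j`, both counted from `1`);
`t i j` is the time of the task in position `i + 1` on machine `j + 1`. -/
noncomputable def C (t : ℕ → ℕ → ℝ) : ℕ → ℕ → ℝ
  | 0, _ => 0
  | _ + 1, 0 => 0
  | i + 1, j + 1 => max (C t i (j + 1)) (C t (i + 1) j) + t i j
termination_by i j => (i, j)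

/-- Operation times in the order `π` (indices from `0`). -/
noncomputable def op {n m : ℕ} (T : Fin n × Fin m → ℝ) (π : Equiv.Perm (Fin n)) (i j : ℕ) : ℝ :=
  if h : i < n ∧ j < m then T (π ⟨i, h.1⟩, ⟨j, h.2⟩) else 0

/-- The makespan of the permutation schedule `π`. -/
noncomputable def makespan {n m : ℕ} (T : Fin n × Fin m → ℝ) (π : Equiv.Perm (Fin n)) : ℝ :=
  C (op T π) n m

/-- The optimal makespan. -/
noncomputable def Lstar {n m : ℕ} (T : Fin n × Fin m → ℝ) : ℝ :=
  (univ : Finset (Equiv.Perm (Fin n))).inf' univ_nonempty (makespan T)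

/-- The error of the optimal policy, `τ` being the mean operation time. -/
noncomputable def alphaStar {n m : ℕ} (τ : ℝ) (T : Fin n × Fin m → ℝ) : ℝ :=
  Lstar T - ((n : ℝ) + m - 1) * τ

/-! ### deterministic bound -/

lemma C_zero_right (t : ℕ → ℕ → ℝ) (i : ℕ) : C t i 0 = 0 := by cases i <;> simp [C]

lemma C_nonneg (t : ℕ → ℕ → ℝ) (h : ∀ i j, 0 ≤ t i j) (i j : ℕ) : 0 ≤ C t i j := by
  induction i generalizing j with
  | zero => simp [C]
  | succ i ih =>
    cases j with
    | zero => simp [C]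
    | succ j =>
      rw [C]
      exact add_nonneg (le_max_of_le_left (ih _)) (h _ _)

lemma C_cont {X : Type} [TopologicalSpace X] (t : X → ℕ → ℕ → ℝ) (h : ∀ i j, Continuous fun x => t x i j)
    (i j : ℕ) : Continuous fun x => C (t x) i j := by
  induction i generalizing j with
  | zero => simp only [C]; exact continuous_const
  | succ i ih =>
    induction j with
    | zero => simp only [C]; exact continuous_const
    | succ j ihj =>
      simp only [C]
      exact ((ih _).max ihj).add (h _ _)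

lemma C_le (t : ℕ → ℕ → ℝ) (n m : ℕ) (p a D : ℝ) (b : ℕ → ℝ) (ha : 0 ≤ a) (hD : 0 ≤ D) (hp : 0 ≤ p)
    (h1 : ∀ i j, t i j ≤ p) (h2 : ∀ j < m, b j ≤ a)
    (h3 : ∀ k ≤ n, ∀ j < m, |∑ i ∈ range k, t i j - k * b j| ≤ D) :
    ∀ j ≤ m, ∀ k ≤ n, C t k j ≤ k * a + D + j * (2 * D + p) := by
  intro j
  induction j with
  | zero =>
    intro _ k _
    rw [C_zero_right]
    positivity
  | succ j ih =>
    intro hj
    have G : ∀ k ≤ n, C t k (j + 1) ≤ ∑ i ∈ range k, t i j + k * (a - b j) + (j + 1) * (2 * D + p) := by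
      intro k
      induction k with
      | zero => intro _; simp only [C]; simp; positivity
      | succ k ihk =>
        intro hk
        rw [C, sum_range_succ]
        have e1 := ihk (by omega)
        have e2 := ih (by omega) (k + 1) hk
        have e3 := (abs_le.1 (h3 (k + 1) hk j (by omega))).1
        have e4 := h2 j (by omega)
        have e5 := h1 k j
        rw [sum_range_succ] at e3
        push_cast at *
        rcases le_total (C t k (j + 1)) (C t (k + 1) j) with h | h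
        · rw [max_eq_right h]; nlinarith
        · rw [max_eq_left h]; nlinarith
    intro k hk
    have e1 := G k hk
    have e3 := (abs_le.1 (h3 k hk j (by omega))).2
    push_cast
    nlinarith

lemma Lstar_le {n m : ℕ} (hn : 0 < n) (T : Fin n × Fin m → ℝ) (h0 : ∀ x, 0 ≤ T x) (a p : ℝ) (ha0 : 0 ≤ a)
    (hp0 : 0 ≤ p) (ha : ∀ j, ∑ i, T (i, j) ≤ a) (hp : ∀ x, T x ≤ p) :
    Lstar T ≤ a + (2 * m ^ 2 + 2 * m) * p := by
  have hn' : (0 : ℝ) < n := by exact_mod_cast hn
  have hav : ∀ j, 0 ≤ (∑ i, T (i, j)) / n ∧ (∑ i, T (i, j)) / n ≤ p := by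
    intro j
    refine ⟨div_nonneg (sum_nonneg fun _ _ => h0 _) hn'.le, ?_⟩
    rw [div_le_iff₀ hn']
    refine (sum_le_sum fun i _ => hp (i, j)).trans ?_
    simp [mul_comm]
  obtain ⟨π, hπ⟩ := Pool.Agent.Lib.Helper21.Steinitz.steinitz hn
    (fun i j => T (i, j) - (∑ i, T (i, j)) / n) hp0
    (fun i j => abs_le.2 ⟨by linarith [h0 (i, j), (hav j).2], by linarith [hp (i, j), (hav j).1]⟩)
    (fun j => by
      rw [sum_sub_distrib, sum_const, card_univ, Fintype.card_fin, nsmul_eq_mul, mul_div_cancel₀ _ hn'.ne', sub_self])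
  refine (inf'_le _ (mem_univ π)).trans ?_
  have := C_le (op T π) n m p (a / n) (m * p) (fun j => if h : j < m then (∑ i, T (i, ⟨j, h⟩)) / n else 0)
    (by positivity) (by positivity) hp0
    (fun i j => by unfold op; split_ifs; exacts [hp _, hp0])
    (fun j hj => by rw [dif_pos hj]; exact div_le_div_of_nonneg_right (ha _) hn'.le)
    (fun k hk j hj => by
      rw [dif_pos hj]
      have e := hπ k hk ⟨j, hj⟩
      rw [sum_congr rfl (g := fun i => op T π i j - (∑ i, T (i, ⟨j, hj⟩)) / n) fun i hi => by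
        have := mem_range.1 hi
        unfold op
        rw [dif_pos (by omega), dif_pos ⟨by omega, hj⟩]] at e
      rwa [sum_sub_distrib, sum_const, card_range, nsmul_eq_mul] at e) m le_rfl n le_rfl
  rw [mul_div_cancel₀ _ hn'.ne'] at this
  unfold makespan
  linarith

lemma Lstar_nonneg {n m : ℕ} (T : Fin n × Fin m → ℝ) (h0 : ∀ x, 0 ≤ T x) : 0 ≤ Lstar T := by
  unfold Lstar
  rw [le_inf'_iff]
  intro π _
  exact C_nonneg _ (fun i j => by unfold op; split_ifs; exacts [h0 _, le_rfl]) _ _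

lemma Lstar_cont {n m : ℕ} : Continuous (Lstar : (Fin n × Fin m → ℝ) → ℝ) := by
  refine Continuous.finset_inf'_apply _ fun π _ => ?_
  refine C_cont (fun T => op T π) (fun i j => ?_) n m
  unfold op
  split_ifs
  · exact continuous_apply _
  · exact continuous_const

/-! ### truncation -/

noncomputable def h (B x : ℝ) : ℝ := max 0 (min x B)
noncomputable def g (B x : ℝ) : ℝ := x - h B x

lemma h_cont (B : ℝ) : Continuous (h B) := by unfold h; fun_prop
lemma g_cont (B : ℝ) : Continuous (g B) := by unfold g h; fun_prop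
lemma h_mem {B : ℝ} (hB : 0 ≤ B) (x : ℝ) : h B x ∈ Set.Icc 0 B :=
  ⟨le_max_left _ _, max_le hB (min_le_right _ _)⟩
lemma g_abs {B : ℝ} (hB : 0 ≤ B) (x : ℝ) : |g B x| ≤ |x| := by
  unfold g h
  rcases le_total x 0 with h1 | h1
  · rw [max_eq_left ((min_le_left _ _).trans h1), sub_zero]
  · rw [max_eq_right (le_min h1 hB), abs_of_nonneg h1, abs_of_nonneg (sub_nonneg.2 (min_le_left _ _))]
    linarith [le_min h1 hB]

lemma g_memLp {μ : Measure ℝ} (h2 : MemLp id 2 μ) {B : ℝ} (hB : 0 ≤ B) : MemLp (g B) 2 μ :=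
  h2.of_le (g_cont B).aestronglyMeasurable (Filter.Eventually.of_forall fun x => g_abs hB x)

lemma small {μ : Measure ℝ} (h0 : ∀ᵐ x ∂μ, 0 ≤ x) (h2 : MemLp id 2 μ) {ε : ℝ} (hε : 0 < ε) :
    ∃ B : ℝ, 0 < B ∧ ∫ x, g B x ^ 2 ∂μ ≤ ε := by
  have hi : Integrable (fun x : ℝ => x ^ 2) μ := h2.integrable_sq
  have := tendsto_integral_of_dominated_convergence (μ := μ) (F := fun (k : ℕ) x => g (k + 1) x ^ 2)
    (f := fun _ => 0) (fun x => x ^ 2) (fun k => ((g_cont _).pow 2).aestronglyMeasurable) hi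
    (fun k => Filter.Eventually.of_forall fun x => by
      rw [Real.norm_eq_abs, abs_pow, ← sq_abs x]
      exact pow_le_pow_left₀ (abs_nonneg _) (g_abs (by positivity) x) 2)
    (by
      filter_upwards [h0] with x hx
      refine tendsto_const_nhds.congr' ?_
      filter_upwards [Filter.eventually_ge_atTop ⌈x⌉₊] with k hk
      have : x ≤ k + 1 := by
        have := (Nat.le_ceil x).trans (Nat.cast_le.2 hk)
        linarith
      simp [g, h, min_eq_left this, max_eq_right hx])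
  rw [integral_zero] at this
  obtain ⟨k, hk⟩ := (this.eventually (Iio_mem_nhds hε)).exists
  exact ⟨k + 1, by positivity, le_of_lt hk⟩

lemma le_add_sq {θ : ℝ} (hθ : 0 < θ) (x : ℝ) : x ≤ θ + x ^ 2 / θ := by
  rw [← sub_le_iff_le_add', le_div_iff₀ hθ]
  nlinarith [sq_nonneg (x - θ)]

section prob

variable {μ : Measure ℝ} [IsProbabilityMeasure μ] {n m : ℕ}

lemma int_eval (f : ℝ → ℝ) (hf : Continuous f) (x : Fin n × Fin m) :
    ∫ T : Fin n × Fin m → ℝ, f (T x) ∂(Measure.pi fun _ => μ) = ∫ y, f y ∂μ := by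
  have e := measurePreserving_eval (fun _ : Fin n × Fin m => μ) x
  have := integral_map (μ := Measure.pi fun _ : Fin n × Fin m => μ) e.measurable.aemeasurable
    (f := f) hf.aestronglyMeasurable
  rw [e.map_eq] at this
  exact this.symm

lemma exp_col {B : ℝ} (hB : 0 < B) (hn : 0 < n) (j : Fin m) :
    Integrable (fun T : Fin n × Fin m → ℝ =>
      Real.exp (1 / (B * √n) * ∑ i, (h B (T (i, j)) - ∫ x, h B x ∂μ))) (Measure.pi fun _ => μ) ∧
    ∫ T : Fin n × Fin m → ℝ, Real.exp (1 / (B * √n) * ∑ i, (h B (T (i, j)) - ∫ x, h B x ∂μ))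
      ∂(Measure.pi fun _ => μ) ≤ 2 := by
  have hsub := hasSubgaussianMGF_of_mem_Icc (μ := μ) (X := h B) (h_cont B).aemeasurable
    (Filter.Eventually.of_forall (h_mem hB.le))
  have hind : iIndepFun (fun (x : Fin n × Fin m) (T : Fin n × Fin m → ℝ) => h B (T x) - ∫ x, h B x ∂μ)
      (Measure.pi fun _ => μ) :=
    iIndepFun_pi (X := fun _ y => h B y - ∫ x, h B x ∂μ) fun _ => ((h_cont B).sub continuous_const).aemeasurable
  have hind' := hind.precomp (g := fun i : Fin n => (i, j)) (fun a b e => (Prod.ext_iff.1 e).1)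
  have hs := HasSubgaussianMGF.sum_of_iIndepFun hind' (s := univ) (c := fun _ => (‖B - 0‖₊ / 2) ^ 2) (fun i _ => by
    have e := (measurePreserving_eval (fun _ : Fin n × Fin m => μ) (i, j))
    exact HasSubgaussianMGF.of_map (Y := Function.eval (i, j)) (X := fun y => h B y - ∫ x, h B x ∂μ)
      e.measurable.aemeasurable (by rw [e.map_eq]; exact hsub))
  refine ⟨hs.integrable_exp_mul _, (hs.mgf_le _).trans ?_⟩
  have hn' : (0 : ℝ) < n := by exact_mod_cast hn
  have e : ((∑ _i : Fin n, (‖B - 0‖₊ / 2) ^ 2 : NNReal) : ℝ) * (1 / (B * √n)) ^ 2 / 2 = 1 / 8 := by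
    simp only [sum_const, card_univ, Fintype.card_fin, nsmul_eq_mul, sub_zero, NNReal.coe_mul, NNReal.coe_natCast,
      NNReal.coe_pow, NNReal.coe_div, coe_nnnorm, Real.norm_eq_abs, abs_of_pos hB, NNReal.coe_ofNat, div_pow, mul_pow,
      Real.sq_sqrt hn'.le]
    field_simp
    norm_num
  rw [e]
  have := Real.exp_bound' (x := 1 / 8) (by norm_num) (by norm_num) (n := 1) (by norm_num)
  norm_num at this ⊢
  linarith

lemma var_col (h2 : MemLp id 2 μ) {B : ℝ} (hB : 0 < B) (j : Fin m) :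
    Integrable (fun T : Fin n × Fin m → ℝ =>
      (∑ i, (g B (T (i, j)) - ∫ x, g B x ∂μ)) ^ 2) (Measure.pi fun _ => μ) ∧
    ∫ T : Fin n × Fin m → ℝ, (∑ i, (g B (T (i, j)) - ∫ x, g B x ∂μ)) ^ 2
      ∂(Measure.pi fun _ => μ) ≤ n * ∫ x, g B x ^ 2 ∂μ := by
  have hg := g_memLp h2 hB.le
  have e := fun x => measurePreserving_eval (fun _ : Fin n × Fin m => μ) x
  have hm : ∀ x : Fin n × Fin m, MemLp (fun T : Fin n × Fin m → ℝ => g B (T x)) 2 (Measure.pi fun _ => μ) :=
    fun x => hg.comp_measurePreserving (e x)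
  have hind : iIndepFun (fun (x : Fin n × Fin m) (T : Fin n × Fin m → ℝ) => g B (T x))
      (Measure.pi fun _ => μ) :=
    iIndepFun_pi (X := fun _ y => g B y) fun _ => (g_cont B).aemeasurable
  have hint : ∀ x : Fin n × Fin m, ∫ T : Fin n × Fin m → ℝ, g B (T x) ∂(Measure.pi fun _ => μ) = ∫ x, g B x ∂μ :=
    int_eval _ (g_cont B)
  constructor
  · exact (memLp_finsetSum _ fun i _ => (hm (i, j)).sub (memLp_const _)).integrable_sq
  · have hv := IndepFun.variance_sum (μ := Measure.pi fun _ : Fin n × Fin m => μ) (s := univ)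
      (X := fun (i : Fin n) (T : Fin n × Fin m → ℝ) => g B (T (i, j))) (fun i _ => hm (i, j))
      (fun a _ b _ hab => hind.indepFun (fun e => hab (Prod.ext_iff.1 e).1))
    rw [variance_eq_integral (memLp_finsetSum' _ fun i _ => hm (i, j)).aemeasurable] at hv
    have e2 : ∫ T, (∑ i, fun (T : Fin n × Fin m → ℝ) => g B (T (i, j))) T ∂(Measure.pi fun _ => μ) =
        ∑ _i : Fin n, ∫ x, g B x ∂μ := by
      simp only [Finset.sum_apply]
      rw [integral_finsetSum _ fun i _ => (hm (i, j)).integrable one_le_two]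
      exact sum_congr rfl fun i _ => hint _
    rw [e2] at hv
    simp only [Finset.sum_apply, ← sum_sub_distrib] at hv
    rw [hv]
    refine (sum_le_sum (g := fun _ => ∫ x, g B x ^ 2 ∂μ) fun i _ => ?_).trans (by simp)
    refine (variance_le_expectation_sq (hm (i, j)).aestronglyMeasurable).trans (le_of_eq ?_)
    exact int_eval (μ := μ) (fun y => g B y ^ 2) ((g_cont B).pow 2) (i, j)

lemma sq_entry (h2 : MemLp id 2 μ) {B : ℝ} (hB : 0 < B) (x : Fin n × Fin m) :
    Integrable (fun T : Fin n × Fin m → ℝ => g B (T x) ^ 2) (Measure.pi fun _ => μ) ∧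
    ∫ T : Fin n × Fin m → ℝ, g B (T x) ^ 2 ∂(Measure.pi fun _ => μ) = ∫ x, g B x ^ 2 ∂μ := by
  have e := measurePreserving_eval (fun _ : Fin n × Fin m => μ) x
  exact ⟨((g_memLp h2 hB.le).comp_measurePreserving e).integrable_sq,
    int_eval (fun y => g B y ^ 2) ((g_cont B).pow 2) x⟩

lemma expect_le (h0 : ∀ᵐ x ∂μ, 0 ≤ x) (h2 : MemLp id 2 μ) (hn : 0 < n) (hm : 0 < m) {B B' θ θ' : ℝ}
    (hB : 0 < B) (hB' : 0 < B') (hθ : 0 < θ) (hθ' : 0 < θ') :
    Integrable (fun T : Fin n × Fin m → ℝ => Lstar T) (Measure.pi fun _ => μ) ∧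
    ∫ T : Fin n × Fin m → ℝ, Lstar T ∂(Measure.pi fun _ => μ) ≤
      n * (∫ x, x ∂μ) + B * √n * (Real.log m + 2) + (θ + m * n * (∫ x, g B x ^ 2 ∂μ) / θ) +
      (2 * m ^ 2 + 2 * m) * (B' + θ' + m * n * (∫ x, g B' x ^ 2 ∂μ) / θ') := by
  have hn' : (0 : ℝ) < n := by exact_mod_cast hn
  have hm' : (0 : ℝ) < m := by exact_mod_cast hm
  have hs : 0 < B * √n := by positivity
  set P := Measure.pi fun _ : Fin n × Fin m => μ with hP
  let X : Fin m → (Fin n × Fin m → ℝ) → ℝ := fun j T =>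
    Real.exp (1 / (B * √n) * ∑ i, (h B (T (i, j)) - ∫ x, h B x ∂μ))
  let Y : Fin m → (Fin n × Fin m → ℝ) → ℝ := fun j T => (∑ i, (g B (T (i, j)) - ∫ x, g B x ∂μ)) ^ 2
  let Z : Fin n × Fin m → (Fin n × Fin m → ℝ) → ℝ := fun x T => g B' (T x) ^ 2
  have iX : Integrable (fun T => ∑ j, X j T) P := integrable_finsetSum _ fun j _ => (exp_col hB hn j).1
  have iY : Integrable (fun T => ∑ j, Y j T) P := integrable_finsetSum _ fun j _ => (var_col h2 hB j).1
  have iZ : Integrable (fun T => ∑ x, Z x T) P := integrable_finsetSum _ fun x _ => (sq_entry h2 hB' x).1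
  have eX : ∫ T, ∑ j, X j T ∂P ≤ m * 2 := by
    rw [integral_finsetSum _ fun j _ => (exp_col hB hn j).1]
    exact (sum_le_sum fun j _ => (exp_col hB hn j).2).trans (by simp)
  have eY : ∫ T, ∑ j, Y j T ∂P ≤ m * (n * ∫ x, g B x ^ 2 ∂μ) := by
    rw [integral_finsetSum _ fun j _ => (var_col h2 hB j).1]
    exact (sum_le_sum fun j _ => (var_col h2 hB j).2).trans (by simp)
  have eZ : ∫ T, ∑ x, Z x T ∂P = m * (n * ∫ x, g B' x ^ 2 ∂μ) := by
    rw [integral_finsetSum _ fun x _ => (sq_entry h2 hB' x).1, sum_congr rfl fun x _ => (sq_entry h2 hB' x).2]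
    simp; ring
  let c0 : ℝ := n * (∫ x, x ∂μ) + B * √n * Real.log m + θ + (2 * m ^ 2 + 2 * m) * (B' + θ')
  let U : (Fin n × Fin m → ℝ) → ℝ := fun T => c0 + (B * √n / m * ∑ j, X j T + (1 / θ * ∑ j, Y j T +
    (2 * m ^ 2 + 2 * m) / θ' * ∑ x, Z x T))
  have i1 := iX.const_mul (B * √n / m)
  have i2 := iY.const_mul (1 / θ)
  have i3 := iZ.const_mul ((2 * m ^ 2 + 2 * m) / θ')
  have iU : Integrable U P := (integrable_const c0).add (i1.add (i2.add i3))
  have hτ : ∫ x, x ∂μ = ∫ x, h B x ∂μ + ∫ x, g B x ∂μ := by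
    rw [← integral_add (Integrable.of_mem_Icc 0 B (h_cont B).aemeasurable (Filter.Eventually.of_forall (h_mem hB.le)))
      ((g_memLp h2 hB.le).integrable one_le_two)]
    simp [g]
  have hae : ∀ᵐ T ∂P, ∀ x, 0 ≤ T x := by
    rw [ae_all_iff]
    intro x
    exact (measurePreserving_eval (fun _ : Fin n × Fin m => μ) x).quasiMeasurePreserving.ae h0
  have hle : ∀ᵐ T ∂P, Lstar T ≤ U T := by
    filter_upwards [hae] with T hT
    have ha : ∀ j, ∑ i, T (i, j) ≤ n * (∫ x, x ∂μ) + B * √n * (Real.log m + (∑ j, X j T) / m) +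
        (θ + (∑ j, Y j T) / θ) := by
      intro j
      have e1 : ∑ i, T (i, j) = n * (∫ x, x ∂μ) + ∑ i, (h B (T (i, j)) - ∫ x, h B x ∂μ) +
          ∑ i, (g B (T (i, j)) - ∫ x, g B x ∂μ) := by
        rw [hτ]
        simp only [sum_sub_distrib, sum_const, card_univ, Fintype.card_fin, nsmul_eq_mul, g]
        ring
      have e2 := le_add_sq hθ (∑ i, (g B (T (i, j)) - ∫ x, g B x ∂μ))
      have e3 : Y j T / θ ≤ (∑ j, Y j T) / θ := div_le_div_of_nonneg_right
        (single_le_sum (f := fun j => Y j T) (fun _ _ => sq_nonneg _) (mem_univ j)) hθ.le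
      have e4 : X j T / m ≤ (∑ j, X j T) / m := div_le_div_of_nonneg_right
        (single_le_sum (f := fun j => X j T) (fun _ _ => (Real.exp_pos _).le) (mem_univ j)) hm'.le
      have e5 := Real.add_one_le_exp (1 / (B * √n) * ∑ i, (h B (T (i, j)) - ∫ x, h B x ∂μ) - Real.log m)
      rw [Real.exp_sub, Real.exp_log hm'] at e5
      have e6 : ∑ i, (h B (T (i, j)) - ∫ x, h B x ∂μ) ≤ B * √n * (Real.log m + (∑ j, X j T) / m) := by
        rw [← div_le_iff₀' hs, div_eq_inv_mul, ← one_div]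
        simp only [X] at e4 ⊢
        linarith
      simp only [Y] at e3 ⊢
      linarith
    have hp : ∀ x, T x ≤ B' + θ' + (∑ x, Z x T) / θ' := by
      intro x
      have e2 := le_add_sq hθ' (g B' (T x))
      have e3 : Z x T / θ' ≤ (∑ x, Z x T) / θ' := div_le_div_of_nonneg_right
        (single_le_sum (f := fun x => Z x T) (fun _ _ => sq_nonneg _) (mem_univ x)) hθ'.le
      have e4 := (h_mem hB'.le (T x)).2
      have e5 : T x = h B' (T x) + g B' (T x) := by simp [g]
      simp only [Z] at e3 ⊢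
      linarith
    have := Lstar_le hn T hT _ _ ((sum_nonneg fun i _ => hT _).trans (ha ⟨0, hm⟩))
      ((hT _).trans (hp (⟨0, hn⟩, ⟨0, hm⟩))) ha hp
    refine this.trans (le_of_eq ?_)
    simp only [U, c0]
    ring
  have iL : Integrable (fun T : Fin n × Fin m → ℝ => Lstar T) P := by
    refine iU.mono' Lstar_cont.aestronglyMeasurable ?_
    filter_upwards [hae, hle] with T h1 h2
    rwa [Real.norm_eq_abs, abs_of_nonneg (Lstar_nonneg T h1)]
  refine ⟨iL, (integral_mono_ae iL iU hle).trans ?_⟩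
  simp only [U]
  have i23 : Integrable (fun T => 1 / θ * ∑ j, Y j T + (2 * m ^ 2 + 2 * m) / θ' * ∑ x, Z x T) P := i2.add i3
  have i123 : Integrable (fun T => B * √n / m * ∑ j, X j T + (1 / θ * ∑ j, Y j T +
    (2 * m ^ 2 + 2 * m) / θ' * ∑ x, Z x T)) P := i1.add i23
  rw [integral_add (integrable_const c0) i123, integral_add i1 i23, integral_add i2 i3,
    integral_const_mul, integral_const_mul, integral_const_mul, eZ]
  have f1 := mul_le_mul_of_nonneg_left eX (by positivity : 0 ≤ B * √n / m)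
  have f2 := mul_le_mul_of_nonneg_left eY (by positivity : 0 ≤ 1 / θ)
  have f3 : B * √n / m * (m * 2) = B * √n * 2 := by field_simp
  simp only [integral_const, probReal_univ, smul_eq_mul, one_mul, c0]
  rw [f3] at f1
  have f4 : (2 * (m : ℝ) ^ 2 + 2 * m) / θ' * (m * (n * ∫ x, g B' x ^ 2 ∂μ)) =
    (2 * m ^ 2 + 2 * m) * (m * n * (∫ x, g B' x ^ 2 ∂μ) / θ') := by ring
  have f5 : 1 / θ * (m * (n * ∫ x, g B x ^ 2 ∂μ)) = m * n * (∫ x, g B x ^ 2 ∂μ) / θ := by ring
  rw [f4]
  rw [f5] at f2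
  nlinarith

end prob

theorem result (μ : Measure ℝ) [IsProbabilityMeasure μ] (h0 : ∀ᵐ x ∂μ, 0 ≤ x) (h2 : MemLp id 2 μ)
    (c : ℝ) (hc : 0 < c) :
    ∃ m₀ : ℕ, ∀ m ≥ m₀, ∃ n₁ : ℕ, ∀ n ≥ n₁,
      Integrable (fun T : Fin n × Fin m → ℝ => alphaStar (∫ x, x ∂μ) T) (Measure.pi fun _ => μ) ∧
      ∫ T : Fin n × Fin m → ℝ, alphaStar (∫ x, x ∂μ) T ∂(Measure.pi fun _ => μ) < c * √(m * n) := by
  obtain ⟨B, hB, hBε⟩ := small h0 h2 (ε := (c / 8) ^ 2) (by positivity)
  refine ⟨⌈(16 * B / c) ^ 4⌉₊ + 1, fun m hm => ?_⟩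
  have hm0 : 0 < m := by omega
  have hm' : (1 : ℝ) ≤ m := by exact_mod_cast hm0
  have hlog : B * (Real.log m + 2) ≤ c / 4 * √m := by
    have h1 : (16 * B / c) ^ 4 ≤ m := (Nat.le_ceil _).trans (by exact_mod_cast (by omega))
    set s := √(√(m : ℝ)) with hs
    have hs0 : 0 < s := by positivity
    have e1 : s ^ 2 = √m := Real.sq_sqrt (Real.sqrt_nonneg _)
    have e2 : s ^ 4 = m := by
      rw [show s ^ 4 = (s ^ 2) ^ 2 by ring, e1, Real.sq_sqrt (by positivity)]
    have h3 : 16 * B / c ≤ s := by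
      rw [← e2] at h1
      exact le_of_pow_le_pow_left₀ (by norm_num) hs0.le h1
    rw [div_le_iff₀ hc] at h3
    have h4 : Real.log m ≤ 4 * (s - 1) := by
      rw [← e2, Real.log_pow]
      push_cast
      linarith [Real.log_le_sub_one_of_pos hs0]
    rw [← e1]
    nlinarith
  set K : ℝ := 2 * m ^ 2 + 2 * m with hK
  have hK0 : 0 < K := by positivity
  obtain ⟨B', hB', hB'ε⟩ := small h0 h2 (ε := (c / (8 * K)) ^ 2) (by positivity)
  refine ⟨⌈(4 * K * B' / c) ^ 2⌉₊ + 1, fun n hn => ?_⟩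
  have hn0 : 0 < n := by omega
  have hn' : (0 : ℝ) < n := by exact_mod_cast hn0
  set R := √((m : ℝ) * n) with hR
  have hR0 : 0 < R := by positivity
  have hR2 : R ^ 2 = m * n := Real.sq_sqrt (by positivity)
  have hRs : R = √m * √n := Real.sqrt_mul (by positivity) _
  obtain ⟨iL, eL⟩ := expect_le (n := n) (m := m) h0 h2 hn0 hm0 hB hB' (θ := c / 8 * R) (θ' := c / (8 * K) * R)
    (by positivity) (by positivity)
  unfold alphaStar
  refine ⟨iL.sub (integrable_const _), ?_⟩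
  rw [integral_sub iL (integrable_const _)]
  simp only [integral_const, probReal_univ, smul_eq_mul, one_mul]
  have hτ : 0 ≤ ∫ x, x ∂μ := integral_nonneg_of_ae h0
  have t1 : B * √n * (Real.log m + 2) ≤ c / 4 * R := by
    rw [hRs]
    nlinarith [Real.sqrt_nonneg (n : ℝ)]
  have t2 : m * n * (∫ x, g B x ^ 2 ∂μ) / (c / 8 * R) ≤ c / 8 * R := by
    rw [div_le_iff₀ (by positivity), ← hR2]
    nlinarith [sq_nonneg R]
  have t3 : m * n * (∫ x, g B' x ^ 2 ∂μ) / (c / (8 * K) * R) ≤ c / (8 * K) * R := by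
    rw [div_le_iff₀ (by positivity), ← hR2]
    nlinarith [sq_nonneg R]
  have t4 : K * B' < c / 4 * R := by
    have h1 : (4 * K * B' / c) ^ 2 < n := (Nat.le_ceil _).trans_lt (by exact_mod_cast (by omega))
    have h3 : 4 * K * B' / c < R := by
      refine lt_of_pow_lt_pow_left₀ 2 hR0.le ?_
      rw [hR2]
      nlinarith
    rw [div_lt_iff₀ hc] at h3
    linarith
  have t5 : K * (c / (8 * K) * R) = c / 8 * R := by field_simp
  have t6 := mul_le_mul_of_nonneg_left t3 hK0.le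
  rw [← hK] at eL
  nlinarith

end Pool.Agent.Results.MP_0b8746_pr.Counter
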